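import Pool.Agent.MP_158692_nt.Mg.Pos
import Pool.Agent.MP_158692_nt.Mg.Core

namespace Pool.Agent.Results.MP_158692_nt.Asymptotic

open Pool.Agent.MP_158692_nt Filter Finset

/-- The predecessors of `a` under the `3x+1` map have a positive density and are equidistributed
in residue classes. -/
theorem result :
    ∀ a : ℤ, a % 3 ≠ 0 → ∃ c : ℝ, 0 < c ∧ ∀ q : ℕ, 0 < q → ∀ r : ℤ,
      Filter.Tendsto
        (fun x : ℕ =>
          (({n : ℤ | |n| ≤ (x : ℤ) ∧ n ≡ r [ZMOD (q : ℤ)] ∧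
              ∃ k : ℕ,
                (fun m : ℤ => if m % 2 = 0 then m / 2 else (3 * m + 1) / 2)^[k] n = a}.ncard : ℕ) : ℝ) /
            (x : ℝ))
        Filter.atTop (nhds (c / (q : ℝ))) := by
  classical
  intro a ha
  obtain ⟨c, hc⟩ := exists_density (fun n => if ∃ k, T^[k] n = a then 1 else 0) a
    (fun n => by split_ifs <;> simp) (fun n hn => by
      have : (∃ k, T^[k] (T n) = a) ↔ ∃ k, T^[k] n = a :=
        ⟨fun ⟨k, h⟩ => ⟨k + 1, h⟩, fun ⟨k, h⟩ => by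
          cases k with
          | zero => exact absurd h hn
          | succ k => exact ⟨k, h⟩⟩
      simp only [this])
  have key : ∀ (q : ℕ) (r : ℤ) (x : ℕ), (∑ n ∈ Icc (-(x : ℤ)) x, if n ≡ r [ZMOD (q : ℤ)] then
      (if ∃ k, T^[k] n = a then (1 : ℝ) else 0) else 0) =
      (((Icc (-(x : ℤ)) x).filter fun n => n ≡ r [ZMOD (q : ℤ)] ∧ ∃ k, T^[k] n = a).card : ℝ) := by
    intro q r x
    rw [card_filter]
    push_cast
    exact sum_congr rfl fun n _ => by rw [ite_and]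
  simp only [key] at hc
  refine ⟨c, ?_, fun q hq r => (hc q hq r).congr fun x => ?_⟩
  · obtain ⟨c0, hc0, X₀, h⟩ := uniform
    have h1 : (0 : ℝ) < |(a : ℝ)| := abs_pos.2 (by rintro h; simp [Int.cast_eq_zero.1 h] at ha)
    have h2 := hc 1 one_pos 0
    simp only [Nat.cast_one, div_one] at h2
    refine (div_pos hc0 h1).trans_le (ge_of_tendsto h2 ?_)
    filter_upwards [eventually_ge_atTop (⌈X₀ * |(a : ℝ)|⌉₊ + 1)] with x hx
    have h3 : ((⌈X₀ * |(a : ℝ)|⌉₊ : ℕ) : ℝ) + 1 ≤ x := by exact_mod_cast hx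
    have h4 : (0 : ℝ) < x := lt_of_lt_of_le (by positivity) h3
    obtain ⟨S, h5, h6⟩ := h a ha (x / |(a : ℝ)|)
      (by rw [le_div_iff₀ h1]; linarith [Nat.le_ceil (X₀ * |(a : ℝ)|)])
    rw [le_div_iff₀ h4, div_mul_eq_mul_div, mul_div_assoc]
    refine h5.trans (Nat.cast_le.2 (card_le_card fun n hn => ?_))
    have h7 := (h6 n hn).1
    rw [mul_div_cancel₀ _ h1.ne'] at h7
    exact mem_filter.2 ⟨mem_Icc.2 (abs_le.1 (by exact_mod_cast h7)), Int.modEq_one, (h6 n hn).2⟩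
  · congr 2
    rw [← Set.ncard_coe_finset]
    congr 1
    ext n
    simp only [coe_filter, mem_Icc, Set.mem_ofPred_eq, abs_le]
    rfl

end Pool.Agent.Results.MP_158692_nt.Asymptotic
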