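import Pool.Agent.MP_158692_nt.Mg.Pos

namespace Pool.Agent.Results.MP_158692_nt.UniformDensity

open Pool.Agent.MP_158692_nt

/-- Uniform positive predecessor density for the `3x+1` map. -/
theorem result :
    ∃ c : ℝ, 0 < c ∧ ∃ X₀ : ℝ, ∀ a : ℤ, a % 3 ≠ 0 → ∀ X : ℝ, X₀ ≤ X →
      c * X ≤
        (({n : ℤ | ((|n| : ℤ) : ℝ) ≤ ((|a| : ℤ) : ℝ) * X ∧
            ∃ k : ℕ,
              (fun m : ℤ => if m % 2 = 0 then m / 2 else (3 * m + 1) / 2)^[k] n = a}.ncard : ℕ) : ℝ) := by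
  obtain ⟨c, hc, X₀, h⟩ := uniform
  refine ⟨c, hc, X₀, fun a ha X hX => ?_⟩
  obtain ⟨S, h1, h2⟩ := h a ha X hX
  refine h1.trans ?_
  rw [← Set.ncard_coe_finset]
  refine Nat.cast_le.2 (Set.ncard_le_ncard (fun n hn => ?_) ?_)
  · exact ⟨by push_cast; exact (h2 n hn).1, (h2 n hn).2⟩
  · refine (Set.finite_Icc (-⌊((|a| : ℤ) : ℝ) * X⌋) ⌊((|a| : ℤ) : ℝ) * X⌋).subset fun n hn => ?_
    exact abs_le.1 (Int.le_floor.2 hn.1)

end Pool.Agent.Results.MP_158692_nt.UniformDensity
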