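import Pool.Agent.MP_158692_nt.S86.B

namespace Pool.Agent.Results.MP_158692_nt.WorstResidue

/-- Every residue class prime to `3` carries probability at least `c / 3 ^ n` under the Syracuse
random variable modulo `3 ^ n`. -/
theorem result :
    ∃ c : ℝ, 0 < c ∧ ∀ (n : ℕ) (b : ℤ), ¬ (3 : ℤ) ∣ b →
      ENNReal.ofReal (c / 3 ^ n) ≤ ∑' a : Fin n → ℕ,
        if (3 : ℤ) ^ n ∣ 2 ^ (∑ j, (a j + 1)) * b -
            ∑ i : Fin n, 3 ^ (i : ℕ) * 2 ^ (∑ j, if i < j then a j + 1 else 0)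
        then (2⁻¹ : ENNReal) ^ (∑ j, (a j + 1)) else 0 :=
  Pool.Agent.MP_158692_nt.S86.main

end Pool.Agent.Results.MP_158692_nt.WorstResidue
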